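import Pool.Agent.Work.MP_959bfa_wn.Interface

/-! # Block CNT (helper52) -/

namespace Wn

open Finset

/-- the code of a packing -/
theorem CNT_code (n M : ℕ) (P : Fin n → ℝ × ℝ) (I : Finset (Fin n)) (h : IsPack P M I) :
    ∃ (E : Finset (Fin n)) (f : Fin n → ℕ) (Q : ℕ → Bx), E.card ≤ 4 * M ∧
      (∀ a b, a ≠ b → Dj (Q a) (Q b)) ∧ (∀ i ∈ E, In (Q (f i)) (P i).1 (P i).2) ∧
      ∀ i, i ∈ I ↔ ∃ e₁ ∈ E, ∃ e₂ ∈ E, ∃ e₃ ∈ E, ∃ e₄ ∈ E, f e₁ = f e₂ ∧ f e₁ = f e₃ ∧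
        f e₁ = f e₄ ∧ (P e₁).1 ≤ (P i).1 ∧ (P i).1 ≤ (P e₂).1 ∧ (P e₃).2 ≤ (P i).2 ∧
        (P i).2 ≤ (P e₄).2 := by
  classical
  obtain ⟨Q, hdj, hne, hI⟩ := h
  have h1 : ∀ a, ∃ i ∈ inds P (Q a), ∀ j ∈ inds P (Q a), (P i).1 ≤ (P j).1 := fun a =>
    Finset.exists_min_image _ _ (hne a)
  have h2 : ∀ a, ∃ i ∈ inds P (Q a), ∀ j ∈ inds P (Q a), (P j).1 ≤ (P i).1 := fun a =>
    Finset.exists_max_image _ _ (hne a)
  have h3 : ∀ a, ∃ i ∈ inds P (Q a), ∀ j ∈ inds P (Q a), (P i).2 ≤ (P j).2 := fun a =>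
    Finset.exists_min_image _ _ (hne a)
  have h4 : ∀ a, ∃ i ∈ inds P (Q a), ∀ j ∈ inds P (Q a), (P j).2 ≤ (P i).2 := fun a =>
    Finset.exists_max_image _ _ (hne a)
  choose a1 ha1 hb1 using h1
  choose a2 ha2 hb2 using h2
  choose a3 ha3 hb3 using h3
  choose a4 ha4 hb4 using h4
  obtain ⟨E, hE⟩ : ∃ E : Finset (Fin n), E = (univ : Finset (Fin M)).biUnion
    (fun a => {a1 a, a2 a, a3 a, a4 a}) := ⟨_, rfl⟩
  obtain ⟨f, hf⟩ : ∃ f : Fin n → ℕ, f = fun i =>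
    if h : ∃ a, i ∈ inds P (Q a) then (h.choose : ℕ) else 0 := ⟨_, rfl⟩
  have huniq : ∀ a b i, i ∈ inds P (Q a) → i ∈ inds P (Q b) → a = b := by
    intro a b i h5 h6
    by_contra hab
    exact hdj a b hab _ _ ⟨(mem_fl.1 h5).2, (mem_fl.1 h6).2⟩
  have hfa : ∀ a i, i ∈ inds P (Q a) → f i = a := by
    intro a i h5
    have h6 : ∃ a, i ∈ inds P (Q a) := ⟨a, h5⟩
    rw [hf]
    simp only [dif_pos h6]
    rw [huniq _ _ _ h6.choose_spec h5]
  have hEm : ∀ i ∈ E, ∃ a, i ∈ inds P (Q a) := by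
    intro i hi
    rw [hE] at hi
    obtain ⟨a, -, h5⟩ := Finset.mem_biUnion.1 hi
    refine ⟨a, ?_⟩
    simp only [Finset.mem_insert, Finset.mem_singleton] at h5
    rcases h5 with h5 | h5 | h5 | h5
    · rw [h5]; exact ha1 a
    · rw [h5]; exact ha2 a
    · rw [h5]; exact ha3 a
    · rw [h5]; exact ha4 a
  obtain ⟨Q', hQ'⟩ : ∃ Q' : ℕ → Bx, Q' = fun b => if h : b < M then Q ⟨b, h⟩ else ⟨1, 0, 1, 0⟩ :=
    ⟨_, rfl⟩
  have hQa : ∀ a : Fin M, Q' a = Q a := by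
    intro a
    rw [hQ']
    simp only [a.2, dif_pos]
  have hQe : ∀ b, ¬ b < M → Q' b = ⟨1, 0, 1, 0⟩ := by
    intro b hb
    rw [hQ']
    simp only [hb, dif_neg, not_false_eq_true]
  have hin : ∀ i ∈ E, In (Q' (f i)) (P i).1 (P i).2 := by
    intro i hi
    obtain ⟨a, ha⟩ := hEm i hi
    rw [hfa a i ha, hQa a]
    exact (mem_fl.1 ha).2
  refine ⟨E, f, Q', ?_, ?_, hin, ?_⟩
  · rw [hE]
    refine (Finset.card_biUnion_le).trans ?_
    have h5 : ∀ a ∈ (univ : Finset (Fin M)), ({a1 a, a2 a, a3 a, a4 a} : Finset (Fin n)).card ≤ 4 :=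
      fun a _ => Finset.card_le_four
    refine (Finset.sum_le_sum h5).trans ?_
    rw [Finset.sum_const, Finset.card_univ, Fintype.card_fin, smul_eq_mul]
    omega
  · intro a b hab x y hxy
    by_cases h5 : a < M
    · by_cases h6 : b < M
      · have h7 := hQa ⟨a, h5⟩
        have h8 := hQa ⟨b, h6⟩
        simp only at h7 h8
        rw [h7, h8] at hxy
        exact hdj _ _ (fun h => hab (congrArg Fin.val h)) x y hxy
      · rw [hQe b h6] at hxy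
        have h7 := hxy.2.1
        have h8 := hxy.2.2.1
        simp only at h7 h8
        linarith
    · rw [hQe a h5] at hxy
      have h7 := hxy.1.1
      have h8 := hxy.1.2.1
      simp only at h7 h8
      linarith
  · intro i
    constructor
    · intro hi
      obtain ⟨a, ha⟩ := (hI i).1 hi
      have hmem : ∀ x, x = a1 a ∨ x = a2 a ∨ x = a3 a ∨ x = a4 a → x ∈ E := by
        intro x hx
        rw [hE]
        exact Finset.mem_biUnion.2 ⟨a, mem_univ _, by simpa using hx⟩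
      refine ⟨a1 a, hmem _ (Or.inl rfl), a2 a, hmem _ (Or.inr (Or.inl rfl)), a3 a,
        hmem _ (Or.inr (Or.inr (Or.inl rfl))), a4 a, hmem _ (Or.inr (Or.inr (Or.inr rfl))),
        ?_, ?_, ?_, hb1 a i ha, hb2 a i ha, hb3 a i ha, hb4 a i ha⟩
      · rw [hfa a _ (ha1 a), hfa a _ (ha2 a)]
      · rw [hfa a _ (ha1 a), hfa a _ (ha3 a)]
      · rw [hfa a _ (ha1 a), hfa a _ (ha4 a)]
    · rintro ⟨e₁, h₁, e₂, h₂, e₃, h₃, e₄, h₄, f2, f3, f4, x1, x2, y1, y2⟩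
      obtain ⟨a, ha⟩ := hEm e₁ h₁
      have k1 := hin e₁ h₁
      have k2 := hin e₂ h₂
      have k3 := hin e₃ h₃
      have k4 := hin e₄ h₄
      rw [← f2] at k2
      rw [← f3] at k3
      rw [← f4] at k4
      rw [hfa a _ ha, hQa a] at k1 k2 k3 k4
      refine (hI i).2 ⟨a, mem_fl.2 ⟨mem_univ _, k1.1.trans x1, x2.trans k2.2.1, k3.2.2.1.trans y1,
        y2.trans k4.2.2.2⟩⟩

/-- number of codes -/
theorem CNT_num (n m : ℕ) :
    ∑ E : Finset (Fin n), (if E.card ≤ m then 8 ^ E.card else 0) ≤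
      ∑ j ∈ range (m + 1), n.choose j * 8 ^ j := by
  have h1 := Finset.sum_powerset_apply_card (fun j => if j ≤ m then 8 ^ j else 0)
    (x := (univ : Finset (Fin n)))
  rw [Finset.powerset_univ, Finset.card_univ, Fintype.card_fin] at h1
  rw [h1]
  have h2 : ∀ j ∈ range (n + 1), n.choose j • (if j ≤ m then 8 ^ j else 0) =
      if j ≤ m then n.choose j * 8 ^ j else 0 := by
    intro j _
    split_ifs
    · rw [smul_eq_mul]
    · rw [smul_zero]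
  rw [Finset.sum_congr rfl h2, ← Finset.sum_filter]
  refine Finset.sum_le_sum_of_subset fun j hj => ?_
  have h3 := (Finset.mem_filter.1 hj).2
  exact Finset.mem_range.2 (by omega)

theorem CNT (hSWP : stmt_SWP) : stmt_CNT := by
  classical
  intro n M P hP
  have hex : ∀ I : Finset (Fin n), ∃ (E : Finset (Fin n)) (f : Fin n → ℕ) (Q : ℕ → Bx),
      IsPack P M I → E.card ≤ 4 * M ∧
      (∀ a b, a ≠ b → Dj (Q a) (Q b)) ∧ (∀ i ∈ E, In (Q (f i)) (P i).1 (P i).2) ∧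
      ∀ i, i ∈ I ↔ ∃ e₁ ∈ E, ∃ e₂ ∈ E, ∃ e₃ ∈ E, ∃ e₄ ∈ E, f e₁ = f e₂ ∧ f e₁ = f e₃ ∧
        f e₁ = f e₄ ∧ (P e₁).1 ≤ (P i).1 ∧ (P i).1 ≤ (P e₂).1 ∧ (P e₃).2 ≤ (P i).2 ∧
        (P i).2 ≤ (P e₄).2 := by
    intro I
    by_cases h : IsPack P M I
    · obtain ⟨E, f, Q, h1⟩ := CNT_code n M P I h
      exact ⟨E, f, Q, fun _ => h1⟩
    · exact ⟨∅, fun _ => 0, fun _ => ⟨0, 0, 0, 0⟩, fun h' => absurd h' h⟩
  choose E f Q hEfQ using hex
  obtain ⟨T, hT⟩ : ∃ T : Finset (Σ _ : Finset (Fin n),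
      Finset (Fin n) × Finset (Fin n) × Finset (Fin n)),
      T = (univ.filter (fun A : Finset (Fin n) => A.card ≤ 4 * M)).sigma
        (fun A => A.powerset ×ˢ A.powerset ×ˢ A.powerset) := ⟨_, rfl⟩
  have hTc : T.card ≤ ∑ j ∈ range (4 * M + 1), n.choose j * 8 ^ j := by
    rw [hT, Finset.card_sigma, Finset.sum_filter]
    refine le_trans (le_of_eq ?_) (CNT_num n (4 * M))
    refine Finset.sum_congr rfl fun A _ => ?_
    split_ifs
    · rw [Finset.card_product, Finset.card_product, Finset.card_powerset, ← mul_pow, ← mul_pow]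
      norm_num
    · rfl
  refine le_trans ?_ hTc
  refine Finset.card_le_card_of_injOn (fun I => ⟨E I, fl (E I) (Fst (E I) (f I)),
    fl (E I) (Lst (E I) (f I)), fl (E I) (Bt P (E I) (f I))⟩) ?_ ?_
  · intro I hI
    have h1 := hEfQ I (mem_fl.1 hI).2
    rw [hT]
    refine Finset.mem_coe.2 (Finset.mem_sigma.2 ⟨?_, ?_⟩)
    · exact Finset.mem_filter.2 ⟨mem_univ _, h1.1⟩
    · simp only [Finset.mem_product, Finset.mem_powerset]
      exact ⟨fl_subset _ _, fl_subset _ _, fl_subset _ _⟩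
  · intro I hI J hJ heq
    have h1 := hEfQ I (mem_fl.1 (Finset.mem_coe.1 hI)).2
    have h2 := hEfQ J (mem_fl.1 (Finset.mem_coe.1 hJ)).2
    simp only [Sigma.mk.injEq, heq_eq_eq, Prod.mk.injEq] at heq
    obtain ⟨e0, e1, e2, e3⟩ := heq
    have e0' : E J = E I := e0.symm
    rw [e0'] at e1 e2 e3 h2
    have key := hSWP n P hP (E I) (f I) (f J) (Q I) (Q J) h1.2.1 h2.2.1 h1.2.2.1 h2.2.2.1 (by
      intro i hi
      have m1 := Finset.ext_iff.1 e1 i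
      have m2 := Finset.ext_iff.1 e2 i
      have m3 := Finset.ext_iff.1 e3 i
      simp only [mem_fl, hi, true_and] at m1 m2 m3
      exact ⟨m1, m2, m3⟩)
    ext i
    rw [h1.2.2.2 i, h2.2.2.2 i]
    constructor
    · rintro ⟨e₁, h₁, e₂, h₂, e₃, h₃, e₄, h₄, f2, f3, f4, h5⟩
      exact ⟨e₁, h₁, e₂, h₂, e₃, h₃, e₄, h₄, (key _ h₁ _ h₂).1 f2, (key _ h₁ _ h₃).1 f3,
        (key _ h₁ _ h₄).1 f4, h5⟩
    · rintro ⟨e₁, h₁, e₂, h₂, e₃, h₃, e₄, h₄, f2, f3, f4, h5⟩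
      exact ⟨e₁, h₁, e₂, h₂, e₃, h₃, e₄, h₄, (key _ h₁ _ h₂).2 f2, (key _ h₁ _ h₃).2 f3,
        (key _ h₁ _ h₄).2 f4, h5⟩

end Wn
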