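import Pool.Agent.Work.MP_959bfa_wn.Interface

/-! # Block MWU (helper52) -/

namespace Wn

open Finset

theorem MWU_fl {α : Type} {β : Type} [AddCommMonoid β] (S : Finset α) (q : α → Prop)
    [DecidablePred q] (g : α → β) :
    ∑ a ∈ fl S q, g a = ∑ a ∈ S, if q a then g a else 0 := by
  have h : fl S q = S.filter q := by
    ext a
    simp [mem_fl]
  rw [h, Finset.sum_filter]

/-- a sequence of points with prescribed multiplicities -/
theorem MWU_multi (G : Finset (ℝ × ℝ)) (w : ℝ × ℝ → ℕ) :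
    ∃ P : Fin (∑ p ∈ G, w p) → ℝ × ℝ, ∀ R : Bx,
      (inds P R).card = ∑ p ∈ fl G (fun p => In R p.1 p.2), w p := by
  classical
  have hc : Fintype.card (Σ p : G, Fin (w p)) = ∑ p ∈ G, w p := by
    rw [Fintype.card_sigma]
    simp only [Fintype.card_fin]
    rw [← Finset.sum_coe_sort G w]
  let e : (Σ p : G, Fin (w p)) ≃ Fin (∑ p ∈ G, w p) := Fintype.equivFinOfCardEq hc
  refine ⟨fun i => (e.symm i).1.1, fun R => ?_⟩
  have h1 : (inds (fun i => ((e.symm i).1.1 : ℝ × ℝ)) R).card =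
      (univ.filter (fun x : Σ p : G, Fin (w p) => In R (x.1.1 : ℝ × ℝ).1 (x.1.1 : ℝ × ℝ).2)).card := by
    refine Finset.card_bij (fun i _ => e.symm i) ?_ ?_ ?_
    · intro i hi
      have := (mem_fl.1 hi).2
      simpa using this
    · intro i _ j _ h
      exact e.symm.injective h
    · intro x hx
      refine ⟨e x, ?_, by simp⟩
      refine mem_fl.2 ⟨mem_univ _, ?_⟩
      simpa using hx
  rw [h1]
  have h2 : (univ.filter (fun x : Σ p : G, Fin (w p) => In R (x.1.1 : ℝ × ℝ).1 (x.1.1 : ℝ × ℝ).2)) =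
      (univ.filter (fun p : G => In R (p.1 : ℝ × ℝ).1 (p.1 : ℝ × ℝ).2)).sigma
        (fun p => (univ : Finset (Fin (w p)))) := by
    ext x
    simp
  rw [h2, Finset.card_sigma]
  simp only [Finset.card_univ, Fintype.card_fin]
  rw [Finset.sum_filter, MWU_fl]
  exact Finset.sum_coe_sort G (fun p => if In R p.1 p.2 then w p else 0)

/-- one more index -/
theorem MWU_cons (t : ℕ) (R : Fin t → Bx) (R0 : Bx) (x y : ℝ) [Decidable (In R0 x y)] :
    (2 : ℝ) ^ ((fl univ (fun i => In ((Fin.cons R0 R : Fin (t + 1) → Bx) i) x y)).card) =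
      (2 : ℝ) ^ ((fl univ (fun i => In (R i) x y)).card) * (1 + (if In R0 x y then 1 else 0)) := by
  classical
  have h1 : ∀ (m : ℕ) (q : Fin m → Prop), (fl univ q).card = ∑ i, if q i then 1 else 0 := by
    intro m q
    rw [Finset.card_eq_sum_ones, MWU_fl]
  rw [h1, h1, Fin.sum_univ_succ]
  simp only [Fin.cons_zero, Fin.cons_succ]
  by_cases h : In R0 x y
  · rw [if_pos h, if_pos h, pow_add]
    ring
  · rw [if_neg h, if_neg h, zero_add, add_zero, mul_one]

theorem MWU : stmt_MWU := by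
  classical
  intro F μ T hF hT hTμ hN W hW G hG t
  induction t with
  | zero =>
    refine ⟨Fin.elim0, fun i => i.elim0, ?_⟩
    have h1 : ∀ p : ℝ × ℝ, (fl (univ : Finset (Fin 0))
        (fun i => In ((Fin.elim0 : Fin 0 → Bx) i) p.1 p.2)).card = 0 := by
      intro p
      rw [Finset.card_eq_zero]
      ext i
      exact i.elim0
    simp only [h1, pow_zero, mul_one]
    rw [Finset.sum_const, nsmul_eq_mul, mul_one]
  | succ t ih =>
    obtain ⟨R, hR, hsum⟩ := ih
    obtain ⟨w, hw⟩ : ∃ w : ℝ × ℝ → ℕ,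
        w = fun p => 2 ^ ((fl univ (fun i => In (R i) p.1 p.2)).card) := ⟨_, rfl⟩
    obtain ⟨P, hP⟩ := MWU_multi G w
    obtain ⟨N, hNd⟩ : ∃ N : ℕ, N = ∑ p ∈ G, w p := ⟨_, rfl⟩
    have hNpos : 1 ≤ N := by
      obtain ⟨p, hp⟩ := hG
      rw [hNd]
      have h1 : w p ≤ ∑ p ∈ G, w p := Finset.single_le_sum (fun _ _ => Nat.zero_le _) hp
      have h2 : 1 ≤ w p := by rw [hw]; exact Nat.one_le_two_pow
      omega
    have hN0 : (0 : ℝ) < N := by exact_mod_cast hNpos
    have hT0 : 0 < T := by linarith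
    have hNT : 0 < (N : ℝ) / T := div_pos hN0 hT0
    obtain ⟨k, hk⟩ : ∃ k : ℕ, k = ⌈(N : ℝ) / T⌉₊ := ⟨_, rfl⟩
    have hk1 : 1 ≤ k := by rw [hk]; exact Nat.one_le_ceil_iff.2 hNT
    have hkN : (N : ℝ) / T ≤ k := by rw [hk]; exact Nat.le_ceil _
    have hk2 : (k : ℝ) < N / T + 1 := by rw [hk]; exact Nat.ceil_lt_add_one hNT.le
    have hk0 : (0 : ℝ) < k := by exact_mod_cast hk1
    have hNTk : (N : ℝ) ≤ T * k := by
      rw [div_le_iff₀ hT0] at hkN
      linarith
    have hNk : (N : ℝ) ≤ μ * k := hNTk.trans (mul_le_mul_of_nonneg_right hTμ hk0.le)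
    rw [hNd] at hNk
    obtain ⟨Z, hZ, hZ2⟩ := hN _ k P hk1 hNk
    rw [← hNd] at hZ
    have hZT : (Z.card : ℝ) ≤ F * T := by
      refine hZ.trans (mul_le_mul_of_nonneg_left ?_ hF)
      rw [div_le_iff₀ hk0]
      exact hNTk
    have hex : ∃ R0 ∈ W, ¬ ∃ z ∈ Z, In R0 z.1 z.2 := by
      by_contra h
      refine hW ⟨Z, hZT, fun R1 hR1 => ?_⟩
      by_contra h2
      exact h ⟨R1, hR1, h2⟩
    obtain ⟨R0, hR0, hno⟩ := hex
    have hlt : (inds P R0).card < k := by
      by_contra h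
      exact hno (hZ2 R0 (not_lt.1 h))
    rw [hP R0] at hlt
    refine ⟨Fin.cons R0 R, ?_, ?_⟩
    · intro i
      refine Fin.cases ?_ (fun j => ?_) i
      · exact hR0
      · exact hR j
    · simp only [MWU_cons]
      have h1 : ∑ p ∈ G, (2 : ℝ) ^ ((fl univ (fun i => In (R i) p.1 p.2)).card) *
          (1 + (if In R0 p.1 p.2 then 1 else 0)) =
          (N : ℝ) + ((∑ p ∈ fl G (fun p => In R0 p.1 p.2), w p : ℕ) : ℝ) := by
        rw [hNd, MWU_fl]
        push_cast
        rw [← Finset.sum_add_distrib]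
        refine Finset.sum_congr rfl fun p _ => ?_
        have h2 : (w p : ℝ) = (2 : ℝ) ^ ((fl univ (fun i => In (R i) p.1 p.2)).card) := by
          rw [hw]
          push_cast
          rfl
        rw [← h2]
        by_cases h : In R0 p.1 p.2
        · rw [if_pos h, if_pos h]
          ring
        · rw [if_neg h, if_neg h]
          ring
      have h3 : ((∑ p ∈ fl G (fun p => In R0 p.1 p.2), w p : ℕ) : ℝ) ≤ N / T := by
        have h4 : ((∑ p ∈ fl G (fun p => In R0 p.1 p.2), w p : ℕ) : ℝ) + 1 ≤ k := by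
          exact_mod_cast hlt
        linarith
      have h5 : (N : ℝ) ≤ G.card * (1 + 1 / T) ^ t := by
        refine le_trans (le_of_eq ?_) hsum
        rw [hNd, hw]
        push_cast
        rfl
      calc _ = (N : ℝ) + ((∑ p ∈ fl G (fun p => In R0 p.1 p.2), w p : ℕ) : ℝ) := h1
        _ ≤ N + N / T := by linarith
        _ = N * (1 + 1 / T) := by ring
        _ ≤ (G.card * (1 + 1 / T) ^ t) * (1 + 1 / T) :=
            mul_le_mul_of_nonneg_right h5 (by positivity)
        _ = G.card * (1 + 1 / T) ^ (t + 1) := by ring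

end Wn
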